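import Mathlib

set_option autoImplicit false

namespace Pool.Agent.Results.MP_16e23c_nt.LuckyIndexGap

/-- The lists of the lucky sieve, with positions counted from `0`, by the recursion used in the
frozen statement of the problem: `stage 0 = (1, 3, 5, 7, ...)`, and `stage (k+1)` is `stage k`
with every `d`-th term deleted, `d = stage k (k+1)`. -/
def stage : ℕ → ℕ → ℕ
  | 0, m => 2 * m + 1
  | k + 1, m => stage k (m + m / (stage k (k + 1) - 1))

/-- A number is lucky if it occurs in every list of the sieve. -/
def IsLucky (x : ℕ) : Prop := ∀ j : ℕ, ∃ m : ℕ, stage j m = x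

theorem stage_succ (k m : ℕ) :
    stage (k + 1) m = stage k (m + m / (stage k (k + 1) - 1)) := rfl

theorem stage_strictMono (k : ℕ) : StrictMono (stage k) := by
  induction k with
  | zero =>
    intro a b h
    show 2 * a + 1 < 2 * b + 1
    omega
  | succ k ih =>
    intro a b h
    rw [stage_succ, stage_succ]
    apply ih
    have := Nat.div_le_div_right (c := stage k (k + 1) - 1) h.le
    omega

theorem le_stage (k m : ℕ) : 2 * m + 1 ≤ stage k m := by
  induction k generalizing m with
  | zero => exact le_refl _
  | succ k ih =>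
    rw [stage_succ]
    refine le_trans ?_ (ih (m + m / (stage k (k + 1) - 1)))
    have h0 : m ≤ m + m / (stage k (k + 1) - 1) := Nat.le_add_right _ _
    generalize m + m / (stage k (k + 1) - 1) = q at h0 ⊢
    omega

theorem stage_odd (k m : ℕ) : stage k m % 2 = 1 := by
  induction k generalizing m with
  | zero => show (2 * m + 1) % 2 = 1; omega
  | succ k ih => rw [stage_succ]; exact ih _

/-- After the second sieving step every term is `1` or `3` modulo `6`. -/
theorem stage_mod_six (k m : ℕ) : stage (k + 1) m % 6 = 1 ∨ stage (k + 1) m % 6 = 3 := by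
  induction k generalizing m with
  | zero =>
    have h : stage (0 + 1) m = 2 * (m + m / 2) + 1 := rfl
    rw [h]
    omega
  | succ k ih => rw [stage_succ]; exact ih _

theorem stage_eq_of_lt {k m : ℕ} (h : m < stage k (k + 1) - 1) : stage (k + 1) m = stage k m := by
  rw [stage_succ, Nat.div_eq_of_lt h, Nat.add_zero]

theorem stage_succ_of_le {k m : ℕ} (h : m ≤ k + 1) : stage (k + 1) m = stage k m := by
  apply stage_eq_of_lt
  have := le_stage k (k + 1)
  omega

/-- The `(m+1)`-st lucky number. -/
def lucky (m : ℕ) : ℕ := stage m m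

theorem stage_eq_lucky {k m : ℕ} (h : m ≤ k) : stage k m = lucky m := by
  induction k, h using Nat.le_induction with
  | base => rfl
  | succ k hk ih => rw [stage_succ_of_le (by omega), ih]

theorem stage_succ_eq_lucky (k : ℕ) : stage k (k + 1) = lucky (k + 1) := by
  rw [← stage_succ_of_le (le_refl (k + 1))]
  rfl

theorem lucky_strictMono : StrictMono lucky := by
  apply strictMono_nat_of_lt_succ
  intro n
  rw [← stage_eq_lucky (Nat.le_succ n)]
  exact stage_strictMono (n + 1) (Nat.lt_succ_self n)

theorem mem_range_stage_of_le {i j : ℕ} (h : i ≤ j) {x : ℕ} (hx : ∃ m, stage j m = x) :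
    ∃ m, stage i m = x := by
  induction j, h using Nat.le_induction with
  | base => exact hx
  | succ j hj ih =>
    apply ih
    obtain ⟨m, hm⟩ := hx
    exact ⟨_, hm⟩

theorem isLucky_iff (x : ℕ) : IsLucky x ↔ x ∈ Set.range lucky := by
  constructor
  · intro h
    obtain ⟨m, hm⟩ := h x
    refine ⟨m, ?_⟩
    have h1 := le_stage x m
    rw [← stage_eq_lucky (k := x) (by omega), hm]
  · rintro ⟨m, rfl⟩ j
    rcases le_total m j with h | h
    · exact ⟨m, stage_eq_lucky h⟩
    · exact mem_range_stage_of_le h ⟨m, rfl⟩

theorem set_isLucky : {x | IsLucky x} = Set.range lucky := by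
  ext x
  exact isLucky_iff x

theorem infinite_isLucky : {x | IsLucky x}.Infinite := by
  rw [set_isLucky]
  exact Set.infinite_range_of_injective lucky_strictMono.injective

theorem nth_isLucky (m : ℕ) : Nat.nth IsLucky m = lucky m := by
  have h : Nat.nth IsLucky = lucky := by
    rw [← StrictMono.range_inj (Nat.nth_strictMono infinite_isLucky) lucky_strictMono,
      Nat.range_nth_of_infinite infinite_isLucky]
    exact set_isLucky
  rw [h]

/-- `stage k` already agrees with the lucky numbers at all positions below `lucky k - 1`. -/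
theorem stage_eq_lucky_of_lt {k m : ℕ} (h : m < lucky (k + 1) - 1) : stage k m = lucky m := by
  have key : ∀ j, k ≤ j → stage j m = stage k m := by
    intro j hj
    induction j, hj using Nat.le_induction with
    | base => rfl
    | succ j hj ih =>
      rw [stage_eq_of_lt, ih]
      rw [stage_succ_eq_lucky]
      have : lucky (k + 1) ≤ lucky (j + 1) := lucky_strictMono.monotone (by omega)
      omega
  rw [← key (max k m) (le_max_left _ _)]
  exact stage_eq_lucky (le_max_right _ _)

/-- If `n > 1` is itself lucky, then the `n`-th lucky number exceeds the one before it by at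
least `4`, and by at least `6` once `n > 3`. -/
theorem result (n : ℕ) (hn : IsLucky n) (hn1 : 1 < n) :
    Nat.nth IsLucky (n - 2) + 4 ≤ Nat.nth IsLucky (n - 1) ∧
    (3 < n → Nat.nth IsLucky (n - 2) + 6 ≤ Nat.nth IsLucky (n - 1)) := by
  rw [nth_isLucky, nth_isLucky]
  obtain ⟨m, hm⟩ := (isLucky_iff n).1 hn
  obtain ⟨i, rfl⟩ : ∃ i, m = i + 1 := by
    rcases m with _ | i
    · exfalso
      have : lucky 0 = 1 := rfl
      omega
    · exact ⟨i, rfl⟩
  have hd : stage i (i + 1) = n := by rw [stage_succ_eq_lucky, hm]
  have hlt : n < lucky (i + 1 + 1) := by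
    rw [← hm]
    exact lucky_strictMono (by omega)
  have ha : lucky (n - 2) = stage i (n - 2) := by
    rw [← stage_eq_lucky_of_lt (k := i + 1) (m := n - 2) (by omega), stage_eq_of_lt (by omega)]
  have hc : lucky (n - 1) = stage i n := by
    rw [← stage_eq_lucky_of_lt (k := i + 1) (m := n - 1) (by omega), stage_succ, hd,
      Nat.div_self (by omega)]
    congr 1
    omega
  have h1 : stage i (n - 2) < stage i (n - 1) := stage_strictMono i (by omega)
  have h2 : stage i (n - 1) < stage i n := stage_strictMono i (by omega)
  rw [ha, hc]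
  have o1 := stage_odd i (n - 2)
  have o2 := stage_odd i (n - 1)
  have o3 := stage_odd i n
  refine ⟨by omega, ?_⟩
  intro h3
  rcases i with _ | i
  · exfalso
    have : stage 0 (0 + 1) = 3 := rfl
    omega
  · have s1 := stage_mod_six i (n - 2)
    have s2 := stage_mod_six i (n - 1)
    have s3 := stage_mod_six i n
    omega

end Pool.Agent.Results.MP_16e23c_nt.LuckyIndexGap
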